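import Pool.Agent.N794.CG.Apps2
import Pool.Agent.R459.Eq18

/-!
# Koblitz counts for random curves `y² = x³ + a x + n` whose coefficients are random integers with exchangeable blocks of digits

Method: if blocks of digits can be exchanged then the exponential sums are exponentially small in the number of the
places at which the frequency is not close to a rational number with a small denominator (helper625,
`Pool.Agent.N625.PT`); a mixture with the uniform distribution has the decay which is needed for the passage to sums over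
primes of functions of residues, which is from the starting library (`Pool.Agent.R459.Eq`).
-/

set_option autoImplicit false

namespace Pool.Agent.Results.MP_b89fd0_nt.ExchangeableFamilies

open Finset Filter Pool.Agent.R459.Eq Pool.Agent.N794.CG
open Pool.Agent.W263.BSD (GoodPrime pointCount)

/-- The probability, for the distribution `μ` on the words of `k` digits (the integers `v < b ^ k`), that the word begins with
the `i` digits of `u < b ^ i`. -/
noncomputable def begins (b k : ℕ) (μ : ℕ → ℝ) (i u : ℕ) : ℝ := ∑ w ∈ range (b ^ (k - i)), μ (u * b ^ (k - i) + w)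

/-- `p` is a probability on the words of `k` digits in base `b`, read as integers `v < b ^ k`. There is another probability
`μ` with `p ≤ k ^ T μ` such that after every beginning `u` two different blocks `a`, `a'` of `L` digits can be exchanged:
`p (u a w) = r p (u a' w)` for all endings `w`, with a factor `r` between `η` and `1 / η` which does not depend on `w`; and
given the beginning `u`, each of the two blocks comes next with a probability of at least `η` in the distribution `μ`.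
(For `T = 0` one has `μ = p`. For the uniform distribution on a set of words `r` is `1`.) -/
structure Exchangeable (b L : ℕ) (η : ℝ) (T k : ℕ) (p : ℕ → ℝ) : Prop where
  nonneg : ∀ v, 0 ≤ p v
  sum : ∑ v ∈ range (b ^ k), p v = 1
  dominated : ∃ μ : ℕ → ℝ, (∀ v, 0 ≤ μ v) ∧ ∑ v ∈ range (b ^ k), μ v = 1 ∧ (∀ v < b ^ k, p v ≤ (k : ℝ) ^ T * μ v) ∧
    ∀ i u : ℕ, i + L ≤ k → u < b ^ i → ∃ (a a' : ℕ) (r : ℝ), a < a' ∧ a' < b ^ L ∧ η ≤ r ∧ η * r ≤ 1 ∧
      (∀ w < b ^ (k - (i + L)), p ((b ^ L * u + a) * b ^ (k - (i + L)) + w) = r * p ((b ^ L * u + a') * b ^ (k - (i + L)) + w)) ∧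
      η * begins b k μ i u ≤ begins b k μ (i + L) (b ^ L * u + a) ∧
      η * begins b k μ i u ≤ begins b k μ (i + L) (b ^ L * u + a')

lemma begins_sum (b k : ℕ) (μ : ℕ → ℝ) (i u : ℕ) (hi : i < k) :
    ∑ a ∈ range b, begins b k μ (i + 1) (b * u + a) = begins b k μ i u := by
  unfold begins
  obtain ⟨n, hn⟩ : ∃ n, k - i = n + 1 := ⟨k - i - 1, by omega⟩
  have h1 : k - (i + 1) = n := by omega
  rw [h1, hn, pow_succ, mul_comm (b ^ n) b, Pool.Agent.N625.PT.sum_blocks b (b ^ n)]
  apply sum_congr rfl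
  intro a _
  apply sum_congr rfl
  intro w _
  congr 1
  ring

lemma flex_of {b L T k : ℕ} {η : ℝ} {p : ℕ → ℝ} (hp : Exchangeable b L η T k p) : Pool.Agent.N625.PT.Flex b L η T k p := by
  obtain ⟨h0, h1, μ, m0, m1, m2, m3⟩ := hp
  have hT : (0 : ℝ) ≤ (k : ℝ) ^ T := by positivity
  have hb0 : ∀ i u, 0 ≤ begins b k μ i u := fun i u => sum_nonneg fun w _ => m0 _
  refine ⟨h0, h1, fun i u => (k : ℝ) ^ T * begins b k μ i u, fun i u => mul_nonneg hT (hb0 i u), ?_, ?_, ?_, ?_⟩
  · intro v hv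
    refine (m2 v hv).trans (le_of_eq ?_)
    unfold begins
    simp
  · intro i hi u _
    simp only
    rw [← mul_sum, begins_sum b k μ i u hi]
  · simp only
    have : begins b k μ 0 0 = 1 := by
      unfold begins
      simpa using m1
    rw [this, mul_one]
  · intro i u hi hu
    obtain ⟨a, a', r, q1, q2, q3, q4, q5, q6, q7⟩ := m3 i u hi hu
    refine ⟨a, a', r, q1, q2, q3, q4, q5, ?_, ?_⟩
    · simp only
      calc η * ((k : ℝ) ^ T * begins b k μ i u) = (k : ℝ) ^ T * (η * begins b k μ i u) := by ring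
        _ ≤ _ := mul_le_mul_of_nonneg_left q6 hT
    · simp only
      calc η * ((k : ℝ) ^ T * begins b k μ i u) = (k : ℝ) ^ T * (η * begins b k μ i u) := by ring
        _ ≤ _ := mul_le_mul_of_nonneg_left q7 hT

open Classical in
/-- The random integer `n = c + κ v` has the property `P` with a probability of at least `1 - τ`, if `v < b ^ k` is random with the
distribution `p`. -/
def Almost (b k : ℕ) (p : ℕ → ℝ) (κ c : ℤ) (τ : ℝ) (P : ℤ → Prop) : Prop :=
  ∑ v ∈ range (b ^ k), (if P (c + κ * v) then 0 else p v) ≤ τ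

lemma almost_of {b k : ℕ} {p : ℕ → ℝ} {κ c : ℤ} {τ : ℝ} {P Q : ℤ → Prop}
    (h : Mostly (range (b ^ k)) p (fun v => c + κ * (v : ℕ)) τ P) (hPQ : ∀ n, P n → Q n) : Almost b k p κ c τ Q := by
  classical
  have h1 := h ((range (b ^ k)).filter (fun v : ℕ => ¬ Q (c + κ * v))) (filter_subset _ _)
    (fun i hi hP => (mem_filter.1 hi).2 (hPQ _ hP))
  unfold Almost
  refine le_trans (le_of_eq ?_) h1
  rw [sum_filter]
  apply sum_congr rfl
  intro v _
  by_cases hv : Q (c + κ * v)
  · rw [if_pos hv, if_neg (not_not.2 hv)]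
  · rw [if_neg hv, if_pos hv]

/-- `p` is a prime of good reduction of `y² = x³ + a x + n`, and `#E(F_p) / t` is a prime. -/
def PrimeOrder (t p : ℕ) (a n : ℤ) : Prop := GoodPrime a n p ∧ ∃ q : ℕ, q.Prime ∧ pointCount a n p + 1 = t * q

open Classical in
/-- The number `π_{E, t}(x)` of the primes `p ≤ x` of good reduction of `E : y² = x³ + a x + n` for which `#E(F_p) / t` is a prime. -/
noncomputable def koblitz (a n : ℤ) (t x : ℕ) : ℕ := ((range (x + 1)).filter (fun p => PrimeOrder t p a n)).card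

open Classical in
/-- The sum over the primes `p ≤ x` of the proportion of the residues `ν` modulo `p` for which `p` is a prime of good reduction
of `y² = x³ + a x + ν` with `#E(F_p) / t` a prime. -/
noncomputable def model (a : ℤ) (t x : ℕ) : ℝ :=
  ∑ p ∈ (range (x + 1)).filter Nat.Prime, (((range p).filter (fun ν : ℕ => PrimeOrder t p a ν)).card : ℝ) / p

open Classical in
/-- The sum over the primes `p ≤ x` of the proportion of the pairs `(α, ν)` of residues modulo `p` for which `p` is a prime of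
good reduction of `y² = x³ + α x + ν` with `#E(F_p) / t` a prime. -/
noncomputable def modelPairs (t x : ℕ) : ℝ :=
  ∑ p ∈ (range (x + 1)).filter Nat.Prime,
    (((range p ×ˢ range p).filter (fun z : ℕ × ℕ => PrimeOrder t p z.1 z.2)).card : ℝ) / (p : ℝ) ^ 2

lemma pri_eq (x : ℕ) [DecidablePred Nat.Prime] : (range (x + 1)).filter Nat.Prime = pri x := by
  unfold pri
  congr!

lemma koblitz_eq (a n : ℤ) (t x : ℕ) : koblitz a n t x = cntR (PrimeOrder t) a n x := by
  classical
  unfold koblitz cntR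
  congr 1
  ext p
  simp only [mem_filter, mem_range, mem_pri]
  constructor
  · rintro ⟨h1, h2⟩
    exact ⟨⟨by omega, h2.1.1⟩, h2⟩
  · rintro ⟨h1, h2⟩
    exact ⟨by omega, h2⟩

lemma model_eq (a : ℤ) (t x : ℕ) : model a t x = ∑ p ∈ pri x, Pool.Agent.R459.Eq.dens (PrimeOrder t) a p := by
  classical
  unfold model Pool.Agent.R459.Eq.dens
  rw [pri_eq]

lemma modelPairs_eq (t x : ℕ) : modelPairs t x = ∑ p ∈ pri x, dens2 (PrimeOrder t) p := by
  classical
  unfold modelPairs dens2
  rw [pri_eq]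

lemma order_per (t p : ℕ) (hp : p.Prime) (a a' n n' : ℤ) (h : (p : ℤ) ∣ a - a') (h' : (p : ℤ) ∣ n - n') :
    PrimeOrder t p a n ↔ PrimeOrder t p a' n' := by
  have e1 : ((a : ℤ) : ZMod p) = ((a' : ℤ) : ZMod p) := by
    rw [← sub_eq_zero, ← Int.cast_sub, ZMod.intCast_zmod_eq_zero_iff_dvd]
    exact h
  have e2 : ((n : ℤ) : ZMod p) = ((n' : ℤ) : ZMod p) := by
    rw [← sub_eq_zero, ← Int.cast_sub, ZMod.intCast_zmod_eq_zero_iff_dvd]
    exact h'
  have h1 : GoodPrime a n p ↔ GoodPrime a' n' p := by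
    unfold GoodPrime
    rw [← ZMod.intCast_zmod_eq_zero_iff_dvd, ← ZMod.intCast_zmod_eq_zero_iff_dvd]
    push_cast
    rw [e1, e2]
  have h2 : pointCount a n p = pointCount a' n' p := by
    unfold pointCount
    rw [e1, e2]
  unfold PrimeOrder
  rw [h1, h2]

lemma order_few (p : ℕ) (hp : p.Prime) (a n : ℤ) (Q : Finset ℕ) (hQ : ∀ j ∈ Q, PrimeOrder j p a n) : Q.card ≤ Nat.log 2 p + 3 := by
  rcases Q.eq_empty_or_nonempty with h | ⟨j₀, hj₀⟩
  · rw [h, card_empty]
    omega
  have hgood := (hQ j₀ hj₀).1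
  obtain ⟨m, hm⟩ : ∃ m, m = pointCount a n p + 1 := ⟨_, rfl⟩
  have hm4 : m ≤ 4 * p := by
    haveI : Fact p.Prime := ⟨hp⟩
    have hp2 : p ≠ 2 := by
      intro h2
      apply hgood.2
      rw [h2]
      exact Dvd.intro _ rfl
    have h1 := Pool.Agent.R459.Bsd.pc_eq hp2 a n
    have h2 := Pool.Agent.R459.Bsd.tr_abs hp2 (a : ZMod p) (n : ZMod p)
    rw [← h1] at h2
    rw [abs_le] at h2
    have hp1 : (1 : ℝ) ≤ p := by exact_mod_cast hp.one_le
    have h3 : √(p : ℝ) ≤ p := by
      rw [Real.sqrt_le_left (by linarith)]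
      nlinarith
    have h4 : (m : ℝ) ≤ 4 * p := by
      rw [hm]
      push_cast
      linarith [h2.1]
    exact_mod_cast h4
  have hm1 : m ≠ 0 := by omega
  have h1 : Q.card ≤ m.primeFactors.card := by
    apply card_le_card_of_injOn (fun j => m / j)
    · intro j hj
      obtain ⟨q, hq, hjq⟩ := (hQ j (mem_coe.1 hj)).2
      rw [← hm] at hjq
      have hj0 : 0 < j := Nat.pos_of_ne_zero (by rintro rfl; omega)
      have e : m / j = q := by rw [hjq]; exact Nat.mul_div_cancel_left q hj0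
      simp only [mem_coe, Nat.mem_primeFactors, ne_eq]
      rw [e]
      exact ⟨hq, ⟨j, by rw [hjq]; ring⟩, hm1⟩
    · intro j hj j' hj' h
      obtain ⟨q, hq, hjq⟩ := (hQ j (mem_coe.1 hj)).2
      obtain ⟨q', hq', hjq'⟩ := (hQ j' (mem_coe.1 hj')).2
      rw [← hm] at hjq hjq'
      have hj0 : 0 < j := Nat.pos_of_ne_zero (by rintro rfl; omega)
      have hj0' : 0 < j' := Nat.pos_of_ne_zero (by rintro rfl; omega)
      have e : m / j = q := by rw [hjq]; exact Nat.mul_div_cancel_left q hj0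
      have e' : m / j' = q' := by rw [hjq']; exact Nat.mul_div_cancel_left q' hj0'
      simp only at h
      rw [e, e'] at h
      rw [h] at hjq
      rw [hjq] at hjq'
      exact Nat.eq_of_mul_eq_mul_right hq'.pos hjq'
  have h2 : 2 ^ m.primeFactors.card ≤ m := by
    calc 2 ^ m.primeFactors.card ≤ ∏ q ∈ m.primeFactors, q :=
          Finset.pow_card_le_prod _ _ _ fun q hq => (Nat.prime_of_mem_primeFactors hq).two_le
      _ ≤ m := Nat.le_of_dvd (by omega) (Nat.prod_primeFactors_dvd m)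
  have h3 : m.primeFactors.card ≤ Nat.log 2 m := Nat.le_log_of_pow_le (by norm_num) h2
  have h4 : Nat.log 2 m ≤ Nat.log 2 p + 2 := by
    calc Nat.log 2 m ≤ Nat.log 2 (p * 2 * 2) := Nat.log_mono_right (by omega)
      _ = Nat.log 2 p + 2 := by
        rw [Nat.log_mul_base (by norm_num) (by have := hp.pos; omega), Nat.log_mul_base (by norm_num) hp.ne_zero]
  omega

/-- Let `b ≥ 2`, `L ≥ 1`, `0 < η ≤ 1` and `T₀` be fixed. Let `0 < δ ≤ 1 / 2`. There is `W` such that for `κ ≠ 0` and all sufficiently large `X` the following holds for all `k`, all probabilities `w` on the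
words of `k` digits in which blocks of `L` digits can be exchanged (`Exchangeable b L η T₀ k w`) and all `c`.

(1) For EVERY integer `a`: if `v < b ^ k` is random with the distribution `w` then with a probability of at least
`1 - 2 k ^ T₀ X ^ (- δ / 2)` the integer `n = c + κ v` satisfies for ALL `x ≥ X` with `x ^ W ≤ b ^ k`: for ALL `t ≤ x` the
number `π_{E, t}(x)` for `E : y² = x³ + a x + n` differs from the sum `S` over `p ≤ x` of the proportion of the residues `ν`
modulo `p` such that `y² = x³ + a x + ν` has good reduction and an order which is `t` times a prime by at most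
`x ^ (1 / 2 + δ)`, and for all `t ≤ x ^ (δ / 2)` by at most `(max 1 S') ^ (1 / 2) x ^ δ`, with the same sum `S'` over `p ≤ 2 x`.

(2) With a probability of at least `1 - 2 k ^ T₀ X ^ (- δ / 2)` the integer `a = c + κ v` satisfies for ALL `x ≥ X` with
`x ^ W ≤ b ^ k`: for ALL `t ≤ x` the sum `S` differs from the sum over `p ≤ x` of the proportion of the PAIRS of coefficients
modulo `p` with this property by at most `x ^ (1 / 2 + δ)`, and for all `t ≤ x ^ (δ / 2)` by at most `x ^ δ` times the square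
root of the maximum of `1` and the sum of the proportions of the pairs over `p ≤ 2 x`. -/
theorem result (b L : ℕ) (hb : 2 ≤ b) (hL : 1 ≤ L) (η : ℝ) (hη0 : 0 < η) (hη1 : η ≤ 1) (T₀ : ℕ) (δ : ℝ) (hδ : 0 < δ)
    (hδ1 : δ ≤ 1 / 2) : ∃ W : ℕ, 1 ≤ W ∧ ∀ κ : ℤ, κ ≠ 0 → ∃ X₀ : ℕ, ∀ X : ℕ, X₀ ≤ X →
    ∀ (k : ℕ) (w : ℕ → ℝ), Exchangeable b L η T₀ k w → ∀ c : ℤ,
    (∀ a : ℤ, Almost b k w κ c (2 * (k : ℝ) ^ T₀ * (X : ℝ) ^ (-(δ / 2))) (fun n => ∀ x : ℕ, X ≤ x → x ^ W ≤ b ^ k → ∀ t : ℕ,
      (t ≤ x → |(koblitz a n t x : ℝ) - model a t x| ≤ (x : ℝ) ^ (1 / 2 + δ)) ∧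
      ((t : ℝ) ≤ (x : ℝ) ^ (δ / 2) → |(koblitz a n t x : ℝ) - model a t x| ≤ √(max 1 (model a t (2 * x))) * (x : ℝ) ^ δ))) ∧
    Almost b k w κ c (2 * (k : ℝ) ^ T₀ * (X : ℝ) ^ (-(δ / 2))) (fun a => ∀ x : ℕ, X ≤ x → x ^ W ≤ b ^ k → ∀ t : ℕ,
      (t ≤ x → |model a t x - modelPairs t x| ≤ (x : ℝ) ^ (1 / 2 + δ)) ∧
      ((t : ℝ) ≤ (x : ℝ) ^ (δ / 2) → |model a t x - modelPairs t x| ≤ √(max 1 (modelPairs t (2 * x))) * (x : ℝ) ^ δ)) := by
  obtain ⟨W, hW, H⟩ := fineAt_flex δ hδ hδ1 b L hb hL η hη0 hη1 T₀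
  refine ⟨W, hW, fun κ hκ => ?_⟩
  obtain ⟨X₀, J⟩ := H κ hκ
  refine ⟨X₀, fun X hX k w hw c => ?_⟩
  obtain ⟨h1, h2⟩ := (J X hX k w (flex_of hw) c).two_count PrimeOrder (fun t p hp a a' n n' => order_per t p hp a a' n n')
    order_few
  have h8 : 2 * (k : ℝ) ^ T₀ * (X : ℝ) ^ (-(δ / 2)) = (k : ℝ) ^ T₀ * (2 * (X : ℝ) ^ (-(δ / 2))) := by ring
  rw [h8]
  constructor
  · intro a
    refine almost_of (h1 a) ?_
    intro n hn x hXx hx t
    rw [koblitz_eq, model_eq, model_eq]
    exact ⟨fun ht => (hn x hXx hx).1 t ht, fun ht => (hn x hXx hx).2 t ht⟩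
  · refine almost_of h2 ?_
    intro a hn x hXx hx t
    rw [model_eq, modelPairs_eq, modelPairs_eq]
    exact ⟨fun ht => (hn x hXx hx).1 t ht, fun ht => (hn x hXx hx).2 t ht⟩

end Pool.Agent.Results.MP_b89fd0_nt.ExchangeableFamilies
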