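import Pool.Agent.R418.PT.A
import Pool.Agent.R429.TL.Pts

set_option autoImplicit false

/-!
# Joint Koblitz counts of several elliptic curves twisted by polynomial values

Let `E_i : y² = x³ + A_i x + B_i`, `i < m`, be elliptic curves and `f_1, …, f_m` polynomials in
`ℤ[T]` of degree between `1` and `d`, with product `F`.  Let `E_{i,j}` be the quadratic twist of
`E_i` by `f_i(j)`, `j < N`.  For almost all `j`, up to a proportion of at most `X ^ (-κ)` (any `κ`),
the following holds for ALL `x ≥ X` up to a fixed power of `N`, ALL `t_1, …, t_m` and all residue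
classes `c` modulo `q ≤ x`: the number of the primes `p ≤ x`, `p ≡ c` modulo `q`, for which
`E_{i,j}` has good reduction and `#E_{i,j}(F_p) / t_i` is a prime, for all `i`, is `2 ^ (-m) M` with
an error of at most `√M x ^ δ` plus the number of the `p ≤ x` which divide the leading coefficient of
`F` or the resultant of `F` and `F'`; here `M` counts the primes `p ≤ x`, `p ≡ c` modulo `q`, together with
the choices of `E_i` or its nontrivial quadratic twist modulo `p`, for every `i`, such that the order over `F_p` is `t_i`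
times a prime for all `i`.
-/

namespace Pool.Agent.Results.MP_b89fd0_nt.PolynomialTwists

open Finset Polynomial
open Pool.Agent.R429.TL (points)

/-- `p` is a prime not dividing `2 (4 A³ + 27 B²)` and `p + 1 - s a_p` is `t` times a prime, where
`a_p = p + 1 - #E(F_p)` is the trace of Frobenius of `E : y² = x³ + A x + B`. For `s = 1` this is the order `#E(F_p)`, for
`s = -1` it is the order of the nontrivial quadratic twist of `E` modulo `p`. -/
def Order (A B s : ℤ) (t p : ℕ) : Prop :=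
  p.Prime ∧ ¬ ((p : ℤ) ∣ 2 * (4 * A ^ 3 + 27 * B ^ 2)) ∧
    ∃ l : ℕ, l.Prime ∧ (p : ℤ) + 1 - s * ((p : ℤ) + 1 - points A B p) = t * l

open Classical in
/-- the number of the primes `p ≤ x` with `p % q = c` for which the twist
`y² = x³ + A_i D_i² x + B_i D_i³` has good reduction and an order over `F_p` which is `t_i` times a prime, for all `i` -/
noncomputable def koblitz {m : ℕ} (A B D : Fin m → ℤ) (t : Fin m → ℕ) (q c x : ℕ) : ℕ :=
  ((range (x + 1)).filter (fun p => p.Prime ∧ p % q = c ∧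
    ∀ i, Order (A i * D i ^ 2) (B i * D i ^ 3) 1 (t i) p)).card

/-- the choices of a sign for every `i < m` -/
def signs (m : ℕ) : Finset (Fin m → ℤ) := Fintype.piFinset (fun _ : Fin m => ({1, -1} : Finset ℤ))

open Classical in
/-- the number of the signs `s` for which `p + 1 - s_i a_p(E_i)` is `t_i` times a prime for all `i` -/
noncomputable def weight {m : ℕ} (A B : Fin m → ℤ) (t : Fin m → ℕ) (p : ℕ) : ℕ :=
  ((signs m).filter (fun s => ∀ i, Order (A i) (B i) (s i) (t i) p)).card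

/-- the sum over the primes `p ≤ x` with `p % q = c` of this number -/
noncomputable def base {m : ℕ} (A B : Fin m → ℤ) (t : Fin m → ℕ) (q c x : ℕ) : ℕ :=
  ∑ p ∈ (range (x + 1)).filter (fun p => p.Prime ∧ p % q = c), weight A B t p

open Classical in
/-- the number of the primes `p ≤ x` dividing the leading coefficient of `F` or the resultant of `F`
and its derivative -/
noncomputable def ram (F : ℤ[X]) (x : ℕ) : ℕ :=
  ((range (x + 1)).filter (fun p : ℕ => p.Prime ∧
    ((p : ℤ) ∣ F.leadingCoeff ∨ (p : ℤ) ∣ resultant F F.derivative))).card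

theorem order_congr (s : ℤ) (t p : ℕ) {a a' b b' : ℤ} (e1 : ((a' : ℤ) : ZMod p) = ((a : ℤ) : ZMod p))
    (e2 : ((b' : ℤ) : ZMod p) = ((b : ℤ) : ZMod p)) : Order a' b' s t p ↔ Order a b s t p := by
  have h1 : ((p : ℤ) ∣ 2 * (4 * a' ^ 3 + 27 * b' ^ 2)) ↔
      ((p : ℤ) ∣ 2 * (4 * a ^ 3 + 27 * b ^ 2)) := by
    rw [← ZMod.intCast_zmod_eq_zero_iff_dvd, ← ZMod.intCast_zmod_eq_zero_iff_dvd]
    push_cast
    rw [e1, e2]
  have h2 : points a' b' p = points a b p := by
    classical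
    unfold points
    congr 2
    refine filter_congr fun xy _ => ?_
    rw [← ZMod.intCast_zmod_eq_zero_iff_dvd, ← ZMod.intCast_zmod_eq_zero_iff_dvd]
    push_cast
    rw [e1, e2]
  unfold Order
  rw [h1, h2]

theorem order_le {s A B : ℤ} {t p x : ℕ} (hs : s = 1 ∨ s = -1) (h : Order A B s t p) (hpx : p ≤ x) :
    t ≤ 2 * x ^ 2 + 2 := by
  classical
  obtain ⟨hp, _, l, hl, hr⟩ := h
  have h1 : points A B p ≤ p ^ 2 + 1 := by
    unfold points
    have := card_filter_le (range p ×ˢ range p) (fun xy : ℕ × ℕ =>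
      (p : ℤ) ∣ (xy.2 : ℤ) ^ 2 - ((xy.1 : ℤ) ^ 3 + A * xy.1 + B))
    rw [card_product, card_range, ← sq] at this
    omega
  have h2 : (points A B p : ℤ) ≤ (x : ℤ) ^ 2 + 1 := by
    have : points A B p ≤ x ^ 2 + 1 := h1.trans (by
      have := Nat.pow_le_pow_left hpx 2
      omega)
    exact_mod_cast this
  have h3 : (p : ℤ) ≤ (x : ℤ) ^ 2 := by
    have : p ≤ x ^ 2 := hpx.trans (Nat.le_self_pow two_ne_zero x)
    exact_mod_cast this
  have h4 : (t : ℤ) ≤ t * l := by
    have : (1 : ℤ) ≤ l := by exact_mod_cast hl.one_lt.le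
    nlinarith
  have h5 : (0 : ℤ) ≤ points A B p := Int.natCast_nonneg _
  have h6 : (t : ℤ) ≤ 2 * (x : ℤ) ^ 2 + 2 := by
    rcases hs with hs | hs
    · rw [hs] at hr
      have h7 : (0 : ℤ) ≤ (x : ℤ) ^ 2 := by positivity
      linarith
    · rw [hs] at hr
      linarith
  exact_mod_cast h6

/-- the order of the twist -/
theorem twist_iff (A B D : ℤ) (t p : ℕ) (hp : p.Prime) :
    Order (A * D ^ 2) (B * D ^ 3) 1 t p ↔
      (Order A B 1 t p ∧ jacobiSym D p = 1) ∨ (Order A B (-1) t p ∧ jacobiSym D p = -1) := by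
  have hdisc : 2 * (4 * (A * D ^ 2) ^ 3 + 27 * (B * D ^ 3) ^ 2) =
      2 * (4 * A ^ 3 + 27 * B ^ 2) * D ^ 6 := by ring
  constructor
  · rintro ⟨_, hnd, l, hl, h⟩
    have hpD : ¬ (p : ℤ) ∣ D := by
      intro h
      apply hnd
      rw [hdisc]
      exact Dvd.dvd.mul_left (dvd_pow h (by norm_num)) _
    have hpd : ¬ (p : ℤ) ∣ 2 * (4 * A ^ 3 + 27 * B ^ 2) := by
      intro h
      apply hnd
      rw [hdisc]
      exact Dvd.dvd.mul_right h _
    have hp2 : p ≠ 2 := by
      rintro rfl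
      exact hpd (Dvd.intro _ rfl)
    obtain ⟨h1, h2⟩ := Pool.Agent.R429.TL.twist_points A B D hp hp2
    rcases Pool.Agent.R429.TL.jac_of_not_dvd hp hpD with hj | hj
    · left
      rw [h1 hj] at h
      exact ⟨⟨hp, hpd, l, hl, h⟩, hj⟩
    · right
      rw [h2 hj] at h
      exact ⟨⟨hp, hpd, l, hl, by linarith⟩, hj⟩
  · have key : ∀ s : ℤ, Order A B s t p → jacobiSym D p ≠ 0 →
        p ≠ 2 ∧ ¬ (p : ℤ) ∣ 2 * (4 * (A * D ^ 2) ^ 3 + 27 * (B * D ^ 3) ^ 2) := by
      rintro s ⟨_, hpd, _⟩ hj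
      refine ⟨?_, ?_⟩
      · rintro rfl
        exact hpd (Dvd.intro _ rfl)
      · rw [Pool.Agent.W406.TW.dvd_disc A B D hp (Pool.Agent.W406.TW.not_dvd_of_jac hp hj)]
        exact hpd
    rintro (⟨ht, hj⟩ | ⟨ht, hj⟩)
    · obtain ⟨hp2, hnd⟩ := key _ ht (by rw [hj]; norm_num)
      obtain ⟨h1, h2⟩ := Pool.Agent.R429.TL.twist_points A B D hp hp2
      obtain ⟨l, hl, h⟩ := ht.2.2
      refine ⟨hp, hnd, l, hl, ?_⟩
      rw [h1 hj]
      exact h
    · obtain ⟨hp2, hnd⟩ := key _ ht (by rw [hj]; norm_num)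
      obtain ⟨h1, h2⟩ := Pool.Agent.R429.TL.twist_points A B D hp hp2
      obtain ⟨l, hl, h⟩ := ht.2.2
      refine ⟨hp, hnd, l, hl, ?_⟩
      rw [h2 hj]
      linarith

theorem mem_signs {m : ℕ} {s : Fin m → ℤ} : s ∈ signs m ↔ ∀ i, s i = 1 ∨ s i = -1 := by
  unfold signs
  rw [Fintype.mem_piFinset]
  refine forall_congr' fun i => ?_
  simp

theorem card_signs (m : ℕ) : (signs m).card = 2 ^ m := by
  unfold signs
  rw [Fintype.card_piFinset_const, card_pair (by norm_num), ]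

theorem weight_le {m : ℕ} (A B : Fin m → ℤ) (t : Fin m → ℕ) (p : ℕ) : weight A B t p ≤ 2 ^ m := by
  classical
  unfold weight
  exact (card_filter_le _ _).trans (card_signs m).le

open Classical in
/-- the indicator function of the conditions for the twists is a sum over the signs -/
theorem split_signs {m : ℕ} (A B : Fin m → ℤ) (f : Fin m → ℤ) (t : Fin m → ℕ) (p : ℕ) (hp : p.Prime) :
    (if ∀ i, Order (A i * f i ^ 2) (B i * f i ^ 3) 1 (t i) p then (1 : ℝ) else 0) =
      ∑ s ∈ (signs m).filter (fun s => ∀ i, Order (A i) (B i) (s i) (t i) p),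
        (if ∀ i, jacobiSym (f i) p = s i then (1 : ℝ) else 0) := by
  classical
  by_cases h : ∀ i, Order (A i * f i ^ 2) (B i * f i ^ 3) 1 (t i) p
  · rw [if_pos h]
    have h1 : ∀ i, (Order (A i) (B i) (jacobiSym (f i) p) (t i) p) ∧ (jacobiSym (f i) p = 1 ∨ jacobiSym (f i) p = -1) := by
      intro i
      rcases (twist_iff (A i) (B i) (f i) (t i) p hp).mp (h i) with ⟨h2, h3⟩ | ⟨h2, h3⟩
      · rw [h3]
        exact ⟨h2, Or.inl rfl⟩
      · rw [h3]
        exact ⟨h2, Or.inr rfl⟩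
    have h2 : (fun i => jacobiSym (f i) p) ∈ (signs m).filter (fun s => ∀ i, Order (A i) (B i) (s i) (t i) p) := by
      rw [mem_filter, mem_signs]
      exact ⟨fun i => (h1 i).2, fun i => (h1 i).1⟩
    rw [sum_eq_single_of_mem _ h2]
    · simp
    · intro s _ hs
      rw [if_neg]
      intro h3
      exact hs (funext fun i => (h3 i).symm)
  · rw [if_neg h]
    symm
    apply sum_eq_zero
    intro s hs
    rw [mem_filter, mem_signs] at hs
    rw [if_neg]
    intro h3
    apply h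
    intro i
    rw [twist_iff (A i) (B i) (f i) (t i) p hp]
    rcases hs.1 i with h4 | h4
    · left
      have h5 := hs.2 i
      rw [h4] at h5
      exact ⟨h5, by rw [h3 i, h4]⟩
    · right
      have h5 := hs.2 i
      rw [h4] at h5
      exact ⟨h5, by rw [h3 i, h4]⟩

open Classical in
theorem mean_twist {m : ℕ} (hm : 1 ≤ m) (A B : Fin m → ℤ) (f : Fin m → ℤ[X])
    (hd : ∀ i, 1 ≤ (f i).natDegree) (t : Fin m → ℕ) (q c p : ℕ) (hp : p.Prime) :
    |Pool.Agent.R418.GE.mean p (fun j : ℕ => if p.Prime ∧ p % q = c ∧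
        ∀ i, Order (A i * ((f i).eval (j : ℤ)) ^ 2) (B i * ((f i).eval (j : ℤ)) ^ 3) 1 (t i) p
        then (1 : ℝ) else 0) - (if p % q = c then (weight A B t p : ℝ) / 2 ^ m else 0)| ≤
      (if p % q = c then 2 * ((∏ i, f i).natDegree : ℝ) * ((weight A B t p : ℝ) * (1 / √p)) else 0) +
      (if p.Prime ∧ ((p : ℤ) ∣ (∏ i, f i).leadingCoeff ∨
        (p : ℤ) ∣ resultant (∏ i, f i) (derivative (∏ i, f i))) then 1 else 0) := by
  classical
  obtain ⟨g, hg⟩ : ∃ g : ℕ → ℝ, g = fun j : ℕ => if p.Prime ∧ p % q = c ∧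
        ∀ i, Order (A i * ((f i).eval (j : ℤ)) ^ 2) (B i * ((f i).eval (j : ℤ)) ^ 3) 1 (t i) p
        then (1 : ℝ) else 0 := ⟨_, rfl⟩
  have hg01 : ∀ j, 0 ≤ g j ∧ g j ≤ 1 := by
    intro j
    rw [hg]
    simp only
    split_ifs <;> norm_num
  rw [← hg]
  have hp0 : (0 : ℝ) < p := by exact_mod_cast hp.pos
  have hlast : (0 : ℝ) ≤ (if p.Prime ∧ ((p : ℤ) ∣ (∏ i, f i).leadingCoeff ∨
        (p : ℤ) ∣ resultant (∏ i, f i) (derivative (∏ i, f i))) then (1 : ℝ) else 0) := by
    split_ifs <;> norm_num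
  by_cases hpc : p % q = c
  swap
  · rw [if_neg hpc, if_neg hpc]
    have h0 : ∀ n, g n = 0 := by
      intro n
      rw [hg]
      simp only
      rw [if_neg]
      rintro ⟨_, h, _⟩
      exact hpc h
    have h1 : Pool.Agent.R418.GE.mean p g = 0 := by
      rw [Pool.Agent.R418.GE.mean, sum_congr rfl fun n _ => h0 n]
      simp
    rw [h1, sub_zero, abs_zero, zero_add]
    exact hlast
  rw [if_pos hpc, if_pos hpc]
  have hgs : ∀ n : ℕ, g n = ∑ s ∈ (signs m).filter (fun s => ∀ i, Order (A i) (B i) (s i) (t i) p),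
        (if ∀ i, jacobiSym ((f i).eval (n : ℤ)) p = s i then (1 : ℝ) else 0) := by
    intro n
    rw [hg]
    simp only
    rw [← split_signs A B (fun i => (f i).eval (n : ℤ)) t p hp]
    refine if_congr ?_ rfl rfl
    exact ⟨fun h => h.2.2, fun h => ⟨hp, hpc, h⟩⟩
  by_cases hw : (signs m).filter (fun s => ∀ i, Order (A i) (B i) (s i) (t i) p) = ∅
  · have hw0 : weight A B t p = 0 := by
      unfold weight
      rw [hw, card_empty]
    have h1 : Pool.Agent.R418.GE.mean p g = 0 := by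
      rw [Pool.Agent.R418.GE.mean, sum_congr rfl fun n _ => hgs n, hw]
      simp
    rw [h1, hw0]
    simpa using hlast
  obtain ⟨s₀, hs₀⟩ := nonempty_iff_ne_empty.2 hw
  rw [mem_filter] at hs₀
  have hp2 : p ≠ 2 := by
    rintro rfl
    exact (hs₀.2 ⟨0, hm⟩).2.1 (Dvd.intro _ rfl)
  by_cases hb : (p : ℤ) ∣ Pool.Agent.R418.UP.bad (∏ i, f i)
  · have hb' : (p : ℤ) ∣ (∏ i, f i).leadingCoeff ∨
      (p : ℤ) ∣ resultant (∏ i, f i) (derivative (∏ i, f i)) := by
      unfold Pool.Agent.R418.UP.bad at hb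
      exact (Nat.prime_iff_prime_int.1 hp).dvd_or_dvd hb
    rw [if_pos ⟨hp, hb'⟩]
    have h1 : 0 ≤ Pool.Agent.R418.GE.mean p g ∧ Pool.Agent.R418.GE.mean p g ≤ 1 := by
      have h1 : 0 ≤ ∑ n ∈ range p, g n := sum_nonneg fun n _ => (hg01 n).1
      have h2 : ∑ n ∈ range p, g n ≤ p := by
        refine (sum_le_sum (g := fun _ => (1 : ℝ)) fun n _ => (hg01 n).2).trans ?_
        simp
      exact ⟨div_nonneg h1 hp0.le, div_le_one_of_le₀ h2 hp0.le⟩
    have h2 : (0 : ℝ) ≤ (weight A B t p : ℝ) / 2 ^ m ∧ (weight A B t p : ℝ) / 2 ^ m ≤ 1 := by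
      refine ⟨by positivity, ?_⟩
      rw [div_le_one (by positivity)]
      exact_mod_cast weight_le A B t p
    have h3 : (0 : ℝ) ≤ 2 * ((∏ i, f i).natDegree : ℝ) * ((weight A B t p : ℝ) * (1 / √p)) := by positivity
    rw [abs_le]
    constructor <;> linarith [h1.1, h1.2, h2.1, h2.2]
  · refine le_trans ?_ (le_add_of_nonneg_right hlast)
    have h1 : ∑ n ∈ range p, g n = ∑ s ∈ (signs m).filter (fun s => ∀ i, Order (A i) (B i) (s i) (t i) p),
        ∑ n ∈ range p, (if ∀ i, jacobiSym ((f i).eval (n : ℤ)) p = s i then (1 : ℝ) else 0) := by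
      rw [sum_congr rfl fun n _ => hgs n, sum_comm]
    have h2 : |∑ n ∈ range p, g n - (weight A B t p : ℝ) * ((p : ℝ) / 2 ^ m)| ≤
        (weight A B t p : ℝ) * (2 * (∏ i, f i).natDegree * √p) := by
      have e : (weight A B t p : ℝ) * ((p : ℝ) / 2 ^ m) =
          ∑ s ∈ (signs m).filter (fun s => ∀ i, Order (A i) (B i) (s i) (t i) p), ((p : ℝ) / 2 ^ m) := by
        rw [sum_const, nsmul_eq_mul]
        unfold weight
        rfl
      rw [h1, e, ← sum_sub_distrib]
      refine (abs_sum_le_sum_abs _ _).trans ?_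
      refine (sum_le_sum fun s hs => Pool.Agent.R418.PT.mean_signs hm f hd p hp hp2 hb s
        (mem_signs.1 (mem_filter.1 hs).1)).trans (le_of_eq ?_)
      rw [sum_const, nsmul_eq_mul]
      unfold weight
      rfl
    have h5 : Pool.Agent.R418.GE.mean p g - (weight A B t p : ℝ) / 2 ^ m =
        (∑ n ∈ range p, g n - (weight A B t p : ℝ) * ((p : ℝ) / 2 ^ m)) / p := by
      rw [Pool.Agent.R418.GE.mean]
      field_simp
    rw [h5, abs_div, abs_of_pos hp0, div_le_iff₀ hp0]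
    refine h2.trans (le_of_eq ?_)
    have h6 : √(p : ℝ) * √(p : ℝ) = p := Real.mul_self_sqrt hp0.le
    have h7 : √(p : ℝ) ≠ 0 := (Real.sqrt_pos.mpr hp0).ne'
    calc (weight A B t p : ℝ) * (2 * ((∏ i, f i).natDegree : ℝ) * √p) =
        2 * ((∏ i, f i).natDegree : ℝ) * ((weight A B t p : ℝ) * (1 / √p)) *
          (√(p : ℝ) * √(p : ℝ)) := by field_simp
      _ = _ := by rw [h6]

theorem result (m d κ : ℕ) (hm : 1 ≤ m) (δ : ℝ) (hδ : 0 < δ) : ∃ W X₀ : ℕ, 1 ≤ W ∧
    ∀ (A B : Fin m → ℤ) (f : Fin m → ℤ[X]), (∀ i, 1 ≤ (f i).natDegree ∧ (f i).natDegree ≤ d) →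
      ∀ X N : ℕ, X₀ ≤ X →
        (({j : ℕ | j < N ∧ ∃ x : ℕ, X ≤ x ∧ x ^ W ≤ N ∧
          ∃ (t : Fin m → ℕ) (q c : ℕ), 1 ≤ q ∧ q ≤ x ∧ c < q ∧
            √(max 1 (base A B t q c x : ℝ)) * (x : ℝ) ^ δ + ram (∏ i, f i) x <
              |(koblitz A B (fun i => (f i).eval (j : ℤ)) t q c x : ℝ) -
                (base A B t q c x : ℝ) / 2 ^ m|}).ncard : ℝ) * (X : ℝ) ^ κ ≤ N := by
  classical
  obtain ⟨W, X₀, hW, hX₀, hgen⟩ := Pool.Agent.R418.GE.general (δ / 2) κ (4 * m + 2) (by positivity)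
  obtain ⟨X₁, hX₁⟩ : ∃ X₁ : ℕ, ∀ x : ℕ, X₁ ≤ x → 1 + 4 * 2 ^ m * (m * d : ℝ) ≤ (x : ℝ) ^ (δ / 2) := by
    have h1 : Filter.Tendsto (fun x : ℕ => (x : ℝ) ^ (δ / 2)) Filter.atTop Filter.atTop :=
      (tendsto_rpow_atTop (show 0 < δ / 2 by positivity)).comp tendsto_natCast_atTop_atTop
    have h2 := h1.eventually (Filter.eventually_ge_atTop (1 + 4 * 2 ^ m * (m * d : ℝ)))
    obtain ⟨X₁, h3⟩ := Filter.eventually_atTop.mp h2
    exact ⟨X₁, h3⟩
  refine ⟨W, max X₀ (max X₁ 5), hW, ?_⟩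
  intro A B f hf X N hX
  have hXa : X₀ ≤ X := (le_max_left _ _).trans hX
  have hXb : X₁ ≤ X := (le_max_left _ _).trans ((le_max_right _ _).trans hX)
  have hXc : 5 ≤ X := (le_max_right _ _).trans ((le_max_right _ _).trans hX)
  obtain ⟨R, hR⟩ : ∃ R : ℕ → Finset ((Fin m → ℕ) × ℕ × ℕ), R = fun x : ℕ => if x < 5 then ∅ else
    (Fintype.piFinset fun _ : Fin m => range (2 * x ^ 2 + 3)) ×ˢ
      (Icc 1 x ×ˢ range x) := ⟨_, rfl⟩
  obtain ⟨g, hg⟩ : ∃ g : ℕ → ((Fin m → ℕ) × ℕ × ℕ) → ℕ → ℕ → ℝ, g =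
    fun (_ : ℕ) (s : (Fin m → ℕ) × ℕ × ℕ) (p j : ℕ) => if p.Prime ∧ p % s.2.1 = s.2.2 ∧
        ∀ i, Order (A i * ((f i).eval (j : ℤ)) ^ 2) (B i * ((f i).eval (j : ℤ)) ^ 3) 1 (s.1 i) p
        then (1 : ℝ) else 0 := ⟨_, rfl⟩
  have hRc : ∀ x, (R x).card ≤ x ^ (4 * m + 2) := by
    intro x
    rw [hR]
    simp only
    split_ifs with h
    · simp
    · push Not at h
      rw [card_product, card_product, Fintype.card_piFinset_const, Nat.card_Icc,
        card_range, card_range]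
      have h2 : 2 * x ^ 2 + 3 ≤ x ^ 4 := by
        have h3 : 5 * x ^ 2 ≤ x ^ 2 * x ^ 2 := Nat.mul_le_mul_right _ (by nlinarith)
        have h4 : 1 ≤ x ^ 2 := Nat.one_le_pow _ _ (by omega)
        calc 2 * x ^ 2 + 3 ≤ 5 * x ^ 2 := by omega
          _ ≤ x ^ 2 * x ^ 2 := h3
          _ = x ^ 4 := by ring
      calc (2 * x ^ 2 + 3) ^ m * ((x + 1 - 1) * x) ≤ (x ^ 4) ^ m * (x * x) := by
            apply Nat.mul_le_mul (Nat.pow_le_pow_left h2 m)
            rw [Nat.add_sub_cancel]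
        _ = x ^ (4 * m + 2) := by rw [← pow_mul]; ring
  have hsys : ∀ x s, Pool.Agent.R418.GE.Sys (g x s) := by
    intro x s
    rw [hg]
    refine ⟨fun p n => ?_, fun p hp n => ?_⟩
    · simp only
      split_ifs <;> norm_num
    · simp only
      refine if_congr (and_congr_right fun _ => and_congr_right fun _ => forall_congr' fun i => ?_)
        rfl rfl
      have h1 : (((f i).eval ((n + p : ℕ) : ℤ) : ℤ) : ZMod p) =
          (((f i).eval (n : ℤ) : ℤ) : ZMod p) := by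
        have h1 := Polynomial.sub_dvd_eval_sub ((n + p : ℕ) : ℤ) (n : ℤ) (f i)
        have h2 : ((n + p : ℕ) : ℤ) - (n : ℤ) = p := by push_cast; ring
        rw [h2, ← ZMod.intCast_zmod_eq_zero_iff_dvd] at h1
        push_cast at h1 ⊢
        exact sub_eq_zero.mp h1
      apply order_congr
      · push_cast at h1 ⊢
        rw [h1]
      · push_cast at h1 ⊢
        rw [h1]
  have hcnt : ∀ x s j, Pool.Agent.R418.GE.cnt (g x s) x j =
      (koblitz A B (fun i => (f i).eval (j : ℤ)) s.1 s.2.1 s.2.2 x : ℝ) := by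
    intro x s j
    rw [Pool.Agent.R418.GE.cnt, hg, koblitz, Pool.Agent.R418.GE.pr]
    simp only
    rw [← sum_filter, sum_const, nsmul_eq_mul, mul_one, filter_filter]
    congr 2
    refine filter_congr fun p _ => ?_
    exact ⟨fun h => h.2, fun h => ⟨h.1, h⟩⟩
  have hdeg : ((∏ i, f i).natDegree : ℝ) ≤ m * d := by
    have h1 : (∏ i, f i).natDegree ≤ m * d := by
      refine (natDegree_prod_le _ _).trans ((sum_le_sum fun i _ => (hf i).2).trans ?_)
      simp
    exact_mod_cast h1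
  have hbase : ∀ (t : Fin m → ℕ) (q c x : ℕ), (base A B t q c x : ℝ) =
      ∑ p ∈ Pool.Agent.R418.GE.pr x, (if p % q = c then (weight A B t p : ℝ) else 0) := by
    intro t q c x
    rw [base, Pool.Agent.R418.GE.pr, ← sum_filter, filter_filter]
    push_cast
    rfl
  have hram : ∀ x : ℕ, (ram (∏ i, f i) x : ℝ) = ∑ p ∈ Pool.Agent.R418.GE.pr x,
      (if p.Prime ∧ ((p : ℤ) ∣ (∏ i, f i).leadingCoeff ∨
        (p : ℤ) ∣ resultant (∏ i, f i) (derivative (∏ i, f i))) then (1 : ℝ) else 0) := by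
    intro x
    rw [ram, Pool.Agent.R418.GE.pr, ← sum_filter, sum_const, nsmul_eq_mul, mul_one, filter_filter]
    congr 2
    refine filter_congr fun p _ => ?_
    exact ⟨fun h => ⟨h.1, h⟩, fun h => h.2⟩
  have hsq : ∀ (t : Fin m → ℕ) (q c x : ℕ), ∑ p ∈ Pool.Agent.R418.GE.pr x,
      (if p % q = c then (weight A B t p : ℝ) * (1 / √p) else 0) ≤ 2 * 2 ^ m * √(base A B t q c x : ℝ) := by
    intro t q c x
    obtain ⟨S, hS⟩ : ∃ S : Finset ℕ, S = (Pool.Agent.R418.GE.pr x).filter (fun p => p % q = c ∧ 1 ≤ weight A B t p) := ⟨_, rfl⟩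
    have h1 : (S.card : ℝ) ≤ base A B t q c x := by
      rw [hbase, hS, card_filter]
      push_cast
      apply sum_le_sum
      intro p _
      by_cases h : p % q = c
      · by_cases h2 : 1 ≤ weight A B t p
        · rw [if_pos ⟨h, h2⟩, if_pos h]
          exact_mod_cast h2
        · rw [if_neg (fun h3 => h2 h3.2), if_pos h]
          positivity
      · rw [if_neg (fun h3 => h h3.1), if_neg h]
    have h2 := Pool.Agent.R418.PT.sum_inv_sqrt_le S (by
      intro n hn
      rw [hS, mem_filter, Pool.Agent.R418.GE.mem_pr] at hn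
      exact hn.1.1.one_lt.le)
    calc ∑ p ∈ Pool.Agent.R418.GE.pr x, (if p % q = c then (weight A B t p : ℝ) * (1 / √p) else 0) ≤
        ∑ p ∈ S, 2 ^ m * ((1 : ℝ) / √p) := by
          rw [hS, sum_filter]
          apply sum_le_sum
          intro p _
          by_cases h : p % q = c
          · by_cases h2 : 1 ≤ weight A B t p
            · rw [if_pos h, if_pos ⟨h, h2⟩]
              have h3 : (weight A B t p : ℝ) ≤ 2 ^ m := by exact_mod_cast weight_le A B t p
              gcongr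
            · rw [if_pos h, if_neg (fun h3 => h2 h3.2)]
              have h3 : weight A B t p = 0 := by omega
              rw [h3]
              simp
          · rw [if_neg h, if_neg (fun h3 => h h3.1)]
      _ = 2 ^ m * ∑ p ∈ S, (1 : ℝ) / √p := by rw [mul_sum]
      _ ≤ 2 ^ m * (2 * √(S.card : ℝ)) := by gcongr
      _ ≤ 2 ^ m * (2 * √(base A B t q c x : ℝ)) := by gcongr
      _ = _ := by ring
  have hmdl : ∀ (x : ℕ) (s : (Fin m → ℕ) × ℕ × ℕ),
      |Pool.Agent.R418.GE.mdl (g x s) x - (base A B s.1 s.2.1 s.2.2 x : ℝ) / 2 ^ m| ≤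
        4 * 2 ^ m * (m * d) * √(base A B s.1 s.2.1 s.2.2 x : ℝ) + ram (∏ i, f i) x := by
    intro x s
    have e1 : (base A B s.1 s.2.1 s.2.2 x : ℝ) / 2 ^ m = ∑ p ∈ Pool.Agent.R418.GE.pr x,
        (if p % s.2.1 = s.2.2 then (weight A B s.1 p : ℝ) / 2 ^ m else 0) := by
      rw [hbase, sum_div]
      refine sum_congr rfl fun p _ => ?_
      rw [ite_div, zero_div]
    rw [Pool.Agent.R418.GE.mdl, e1, ← sum_sub_distrib]
    refine (abs_sum_le_sum_abs _ _).trans ?_
    refine (sum_le_sum fun p hp => ?_).trans (b := ∑ p ∈ Pool.Agent.R418.GE.pr x,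
      ((if p % s.2.1 = s.2.2 then 2 * ((∏ i, f i).natDegree : ℝ) * ((weight A B s.1 p : ℝ) * (1 / √p)) else 0) +
      (if p.Prime ∧ ((p : ℤ) ∣ (∏ i, f i).leadingCoeff ∨
        (p : ℤ) ∣ resultant (∏ i, f i) (derivative (∏ i, f i))) then 1 else 0))) ?_
    · rw [hg]
      exact mean_twist hm A B f (fun i => (hf i).1) s.1 s.2.1 s.2.2 p (Pool.Agent.R418.GE.mem_pr.1 hp).1
    · rw [sum_add_distrib, ← hram]
      refine add_le_add ?_ le_rfl
      have h1 := hsq s.1 s.2.1 s.2.2 x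
      calc ∑ p ∈ Pool.Agent.R418.GE.pr x, (if p % s.2.1 = s.2.2 then
            2 * ((∏ i, f i).natDegree : ℝ) * ((weight A B s.1 p : ℝ) * (1 / √p)) else 0) =
          2 * ((∏ i, f i).natDegree : ℝ) * ∑ p ∈ Pool.Agent.R418.GE.pr x,
            (if p % s.2.1 = s.2.2 then ((weight A B s.1 p : ℝ) * (1 / √p)) else 0) := by
            rw [mul_sum]
            refine sum_congr rfl fun p _ => ?_
            rw [mul_ite, mul_zero]
        _ ≤ 2 * (m * d : ℝ) * (2 * 2 ^ m * √(base A B s.1 s.2.1 s.2.2 x : ℝ)) := by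
            gcongr
        _ = _ := by ring
  have hmdl_le : ∀ (x : ℕ) (s : (Fin m → ℕ) × ℕ × ℕ),
      Pool.Agent.R418.GE.mdl (g x s) x ≤ base A B s.1 s.2.1 s.2.2 x := by
    intro x s
    rw [Pool.Agent.R418.GE.mdl, hbase]
    refine sum_le_sum fun p hp => ?_
    have hpp := (Pool.Agent.R418.GE.mem_pr.1 hp).1
    have hz : ∀ h0 : ∀ n, g x s p n = 0, Pool.Agent.R418.GE.mean p (g x s p) = 0 := by
      intro h0
      rw [Pool.Agent.R418.GE.mean, sum_congr rfl fun n _ => h0 n]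
      simp
    split_ifs with hS
    · by_cases hw : 1 ≤ weight A B s.1 p
      · refine (Pool.Agent.R418.GE.mean_mem (hsys x s) p).2.trans ?_
        exact_mod_cast hw
      · have hw0 : weight A B s.1 p = 0 := by omega
        rw [hz, hw0, Nat.cast_zero]
        intro n
        rw [hg]
        simp only
        rw [if_neg]
        rintro ⟨_, _, hall⟩
        have h1 := split_signs A B (fun i => (f i).eval (n : ℤ)) s.1 p hpp
        rw [if_pos hall] at h1
        unfold weight at hw0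
        rw [card_eq_zero] at hw0
        rw [hw0, sum_empty] at h1
        norm_num at h1
    · rw [hz]
      intro n
      rw [hg]
      simp only
      rw [if_neg]
      rintro ⟨_, h, _⟩
      exact hS h
  have hfin : ({j : ℕ | j < N ∧ ∃ x : ℕ, X ≤ x ∧ x ^ W ≤ N ∧
          ∃ (t : Fin m → ℕ) (q c : ℕ), 1 ≤ q ∧ q ≤ x ∧ c < q ∧
            √(max 1 (base A B t q c x : ℝ)) * (x : ℝ) ^ δ + ram (∏ i, f i) x <
              |(koblitz A B (fun i => (f i).eval (j : ℤ)) t q c x : ℝ) -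
                (base A B t q c x : ℝ) / 2 ^ m|} : Set ℕ).Finite :=
    (Set.finite_Iio N).subset fun j hj => hj.1
  rw [Set.ncard_eq_toFinset_card _ hfin]
  refine hgen _ R g hRc hsys X N hXa _ fun j hj => ?_
  obtain ⟨hjN, x, hx1, hx2, t, q, c, hq1, hq2, hc, hbad⟩ :=
    (Set.Finite.mem_toFinset hfin).1 hj
  have hx5 : ¬ x < 5 := by omega
  have hxr : (1 : ℝ) ≤ x := by
    have : 1 ≤ x := by omega
    exact_mod_cast this
  have hx0 : (0 : ℝ) < x := by linarith
  refine ⟨hjN, x, hx1, hx2, (t, q, c), ?_, ?_⟩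
  · rw [hR]
    simp only
    rw [if_neg hx5, mem_product, mem_product, Fintype.mem_piFinset, mem_Icc, mem_range]
    refine ⟨?_, ⟨hq1, hq2⟩, lt_of_lt_of_le hc hq2⟩
    -- some prime is counted
    have hex : ∃ p : ℕ, p ≤ x ∧ p.Prime ∧ 1 ≤ weight A B t p := by
      by_contra hcon
      push Not at hcon
      have hw0 : ∀ p, p ≤ x → p.Prime → weight A B t p = 0 := fun p h1 h2 => by
        have := hcon p h1 h2
        omega
      have hb0 : base A B t q c x = 0 := by
        rw [base]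
        apply sum_eq_zero
        intro p hp
        rw [mem_filter, mem_range] at hp
        exact hw0 p (by omega) hp.2.1
      have hc0 : koblitz A B (fun i => (f i).eval (j : ℤ)) t q c x = 0 := by
        rw [koblitz, card_eq_zero, filter_eq_empty_iff]
        rintro p hp ⟨hpp, _, h⟩
        rw [mem_range] at hp
        have h1 := split_signs A B (fun i => (f i).eval (j : ℤ)) t p hpp
        rw [if_pos h] at h1
        have h2 := hw0 p (by omega) hpp
        unfold weight at h2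
        rw [card_eq_zero] at h2
        rw [h2, sum_empty] at h1
        norm_num at h1
      rw [hb0, hc0] at hbad
      have : 0 ≤ √(max 1 ((0 : ℕ) : ℝ)) * (x : ℝ) ^ δ + ram (∏ i, f i) x := by positivity
      norm_num at hbad
      norm_num at this
      linarith
    obtain ⟨p, hpx, hpp, hp⟩ := hex
    intro i
    rw [mem_range]
    unfold weight at hp
    obtain ⟨s, hs⟩ := card_pos.1 (Nat.lt_of_lt_of_le zero_lt_one hp)
    rw [mem_filter, mem_signs] at hs
    have := order_le (hs.1 i) (hs.2 i) hpx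
    exact Nat.lt_succ_of_le this
  · rw [hcnt]
    simp only
    have h1 := hmdl x (t, q, c)
    have h2 := hmdl_le x (t, q, c)
    simp only at h1 h2
    obtain ⟨M, hM⟩ : ∃ M : ℝ, M = Pool.Agent.R418.GE.mdl (g x (t, q, c)) x := ⟨_, rfl⟩
    obtain ⟨b, hb⟩ : ∃ b : ℝ, b = base A B t q c x := ⟨_, rfl⟩
    obtain ⟨k, hk⟩ : ∃ k : ℝ, k = koblitz A B (fun i => (f i).eval (j : ℤ)) t q c x := ⟨_, rfl⟩
    rw [← hM, ← hb] at h1 h2
    rw [← hb, ← hk] at hbad
    rw [← hM, ← hk]
    have hs1 : √(max 1 M) ≤ √(max 1 b) := Real.sqrt_le_sqrt (max_le_max le_rfl h2)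
    have hs2 : √b ≤ √(max 1 b) := Real.sqrt_le_sqrt (le_max_right _ _)
    have hs0 : 0 ≤ √(max 1 b) := Real.sqrt_nonneg _
    have hxd : 1 + 4 * 2 ^ m * (m * d : ℝ) ≤ (x : ℝ) ^ (δ / 2) := hX₁ x (hXb.trans hx1)
    have hmd : (0 : ℝ) ≤ 4 * 2 ^ m * (m * d) := by positivity
    have hxd1 : 1 ≤ (x : ℝ) ^ (δ / 2) := by linarith
    have hsplit : (x : ℝ) ^ δ = (x : ℝ) ^ (δ / 2) * (x : ℝ) ^ (δ / 2) := by
      rw [← Real.rpow_add hx0]
      congr 1
      ring
    have h3 : |k - b / 2 ^ m| ≤ |k - M| + |M - b / 2 ^ m| := abs_sub_le _ _ _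
    have h4 : √(max 1 M) * (x : ℝ) ^ (δ / 2) + 4 * 2 ^ m * (m * d) * √b ≤
        √(max 1 b) * (x : ℝ) ^ δ := by
      calc √(max 1 M) * (x : ℝ) ^ (δ / 2) + 4 * 2 ^ m * (m * d) * √b ≤
          √(max 1 b) * (x : ℝ) ^ (δ / 2) + 4 * 2 ^ m * (m * d) * √(max 1 b) := by gcongr
        _ = √(max 1 b) * ((x : ℝ) ^ (δ / 2) + 4 * 2 ^ m * (m * d)) := by ring
        _ ≤ √(max 1 b) * ((x : ℝ) ^ (δ / 2) * (x : ℝ) ^ (δ / 2)) := by
            apply mul_le_mul_of_nonneg_left _ hs0
            nlinarith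
        _ = _ := by rw [← hsplit]
    linarith

end Pool.Agent.Results.MP_b89fd0_nt.PolynomialTwists
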